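import Pool.Agent.Helper39.Thirds.Spread

set_option autoImplicit false

namespace Pool.Agent.Results.MP_42db45_gt.FewWrongSmoothings

open LaurentPolynomial Pool.Agent.Helper16.Jones Pool.Agent.Helper39.Thirds

/-- A planar diagram of a classical knot whose f-polynomial is a unit `ε A^k` reduces to the circle
by Reidemeister moves of type I if it has a strictly sparse state (every cycle of the state graph has
a majority of smoothings of the same kind `X`, by at least two, and by at least three if it has two
smoothings of the other kind), or a state with a majority of two `A`-smoothings in every cycle and a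
state with a majority of two `B`-smoothings in every cycle, or a state with series classes of
crossings whose sizes grow fast, or, in general, if its Seifert state is unbalanced or if it has a
strictly unbalanced state. -/
theorem result {n : ℕ} (D : KnotDiagram n) (hD : D.Planar)
    (h : (∃ X s, D.StrictlySparse X s) ∨ (∃ s t, D.Sparse true s ∧ D.Sparse false t) ∨
      (∃ s, Spread D s) ∨ D.Unbalanced D.sign ∨ ∃ s, D.StrictlyUnbalanced s)
    (hf : ∃ ε k : ℤ, D.fPoly = C ε * T k) : R1Trivial D.word := by
  have hf1 : D.fPoly = 1 := f_eq_one D hf
  rcases h with ⟨X, s, h⟩ | ⟨s, t, hs, ht⟩ | ⟨s, hs⟩ | h | ⟨s, hs⟩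
  · exact KnotDiagram.unb_strict hD hf1 (KnotDiagram.strictlyUnbalanced_of_sparse hD h)
  · exact KnotDiagram.two_sided hD hf1 hs ht
  · exact KnotDiagram.unb_strict hD hf1 (hs.strictlyUnbalanced hD)
  · exact KnotDiagram.unb_seifert hD hf1 h
  · exact KnotDiagram.unb_strict hD hf1 hs

end Pool.Agent.Results.MP_42db45_gt.FewWrongSmoothings
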