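import Pool.Agent.Helper16.Sparse.SPM
import Pool.Agent.Helper16.Sparse.SPD
import Pool.Agent.Helper16.Sparse.SPK
import Pool.Agent.Helper16.Sparse.SPU
import Pool.Agent.Helper16.Sparse.Prev
import Pool.Agent.Helper39.Thirds.SpreadK

set_option autoImplicit false

namespace Pool.Agent.Results.MP_79b4ff_gt.SparseStates

open LaurentPolynomial Pool.Agent.Helper16.Knotoid Pool.Agent.Helper16.Sparse
open Pool.Agent.Helper39.Thirds

/-- A knotoid diagram in `S²` whose normalized bracket polynomial is a unit `ε A^k` reduces to the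
crossingless diagram by Reidemeister moves of type I if it is `A`- or `B`-adequate (in the weak
sense), or all its crossings have the same sign, or it has a state in which one kind of smoothing
prevails in every cycle of the state graph, or a state with series classes of crossings whose sizes
grow fast, or, in general, if it has an unbalanced state which is oriented or strict on mixed
sets. -/
theorem result {n : ℕ} (D : GaussDiagram n) (hD : D.Planar)
    (h : (∃ X, D.Adequate X) ∨ (∀ c d, D.sign c = D.sign d) ∨ (∃ X s, Prevails D X s) ∨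
      (∃ s, FastGrowing D s) ∨ ∃ s, D.Unbalanced s ∧ (s = D.sign ∨ MixedStrict D s))
    (hf : ∃ ε k : ℤ, D.normalizedBracket = C ε * T k) : R1Trivial D.word := by
  have hf1 : D.normalizedBracket = 1 := by
    obtain ⟨ε, k, hk⟩ := hf
    obtain ⟨h1, h2⟩ := thm_SPU n D ε k hk
    rw [hk, h1, h2, T_zero, map_one, one_mul]
  rcases h with ⟨X, h⟩ | h | ⟨X, s, h⟩ | ⟨s, h⟩ | h
  · exact D.main hD X h hf1
  · rcases Nat.eq_zero_or_pos n with h0 | h0
    · have h1 : D.word = [] := by
        unfold GaussDiagram.word
        rw [← List.length_eq_zero_iff, List.length_ofFn, h0]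
      rw [h1]
      exact R1Trivial.nil
    · exact D.main hD (D.sign ⟨0, h0⟩) (D.adequate_of_sign fun c => h c ⟨0, h0⟩) hf1
  · obtain ⟨h1, h2⟩ := h.unbalanced hD
    exact thm_SPM thm_SPU thm_SPD thm_SPK n D hD hf ⟨s, h1, Or.inr h2⟩
  · obtain ⟨h1, h2⟩ := h.unbalanced
    exact thm_SPM thm_SPU thm_SPD thm_SPK n D hD hf ⟨s, h1, Or.inr h2⟩
  · exact thm_SPM thm_SPU thm_SPD thm_SPK n D hD hf h

end Pool.Agent.Results.MP_79b4ff_gt.SparseStates
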